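import Pool.Agent.Lib_helper52.CubeMain

/-!
# Torsion in the fundamental group of random two-dimensional cubical complexes

All the definitions occurring in the statement are in `Pool.Agent.Lib_helper52.CubeDefs`.
-/

open Filter Topology Pool.Agent.Lib_helper52.Cube

/-- For every fixed `p` with `0 < p < 1 - (1/2)^(1/6)` (about `0.109`) the fundamental group of the
random complex `Q_2(n,p)` is, with high probability, not torsion free. So it is false that for
every fixed `p > 1 - (1/2)^(1/40)` it is torsion free with high probability. -/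
theorem Pool.Agent.Results.MP_422525_pr.TorsionPersists.result :
    (∀ p : ℝ, 0 < p → p < 1 - (1 / 2 : ℝ) ^ (1 / 6 : ℝ) →
      Tendsto (fun n => prob n p (torsionFreeEvent n)ᶜ) atTop (𝓝 1)) ∧
    ¬ ∀ p : ℝ, 1 - (1 / 2 : ℝ) ^ (1 / 40 : ℝ) < p → p ≤ 1 →
      Tendsto (fun n => prob n p (torsionFreeEvent n)) atTop (𝓝 1) :=
  main
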